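import Mathlib

/-!
Products of independent identically distributed random elements of a monoid.
-/

set_option autoImplicit false

open MeasureTheory ProbabilityTheory Finset Filter Topology
open scoped ENNReal

namespace Pool.Agent.R766.RW

/-- The partial products `B_m B_{m+1} ⋯ B_{m+n-1}`. -/
def prd {N : Type*} [Monoid N] (B : ℕ → N) (m : ℕ) : ℕ → N
  | 0 => 1
  | n + 1 => prd B m n * B (m + n)

theorem prd_add {N : Type*} [Monoid N] (B : ℕ → N) (t s : ℕ) :
    prd B 0 (t + s) = prd B 0 t * prd B t s := by
  induction s with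
  | zero => simp [prd]
  | succ s ih => rw [← add_assoc, prd, ih, prd, mul_assoc, zero_add]

/-- Iterated convolutions. -/
noncomputable def conv {N : Type*} [Monoid N] [MeasurableSpace N] (ν : Measure N) : ℕ → Measure N
  | 0 => Measure.dirac 1
  | n + 1 => (ν.prod (conv ν n)).map fun z => z.2 * z.1

section

variable {N : Type*} [Monoid N] [MeasurableSpace N] [MeasurableMul₂ N] {ν : Measure N}
  [IsProbabilityMeasure ν]

instance isProbabilityMeasure_conv (n : ℕ) : IsProbabilityMeasure (conv ν n) := by
  induction n with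
  | zero => unfold conv; infer_instance
  | succ n ih =>
    unfold conv
    exact Measure.isProbabilityMeasure_map (by fun_prop)

variable {Ω : Type*} {mΩ : MeasurableSpace Ω} {P : Measure Ω} [IsProbabilityMeasure P]
  {B : ℕ → Ω → N}

/-- The sigma-algebra generated by `B 0, …, B (n - 1)`. -/
@[instance_reducible] def sig (B : ℕ → Ω → N) (n : ℕ) : MeasurableSpace Ω :=
  ⨆ i ∈ (Set.Iio n : Set ℕ), MeasurableSpace.comap (B i) inferInstance

omit [Monoid N] [MeasurableMul₂ N] in
theorem measurable_sig {n i : ℕ} (hi : i < n) : Measurable[sig B n] (B i) := by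
  have h1 : MeasurableSpace.comap (B i) inferInstance ≤ sig B n :=
    le_iSup₂_of_le (f := fun i (_ : i ∈ (Set.Iio n : Set ℕ)) =>
      MeasurableSpace.comap (B i) inferInstance) i hi le_rfl
  exact (comap_measurable (B i)).mono h1 le_rfl

theorem measurable_prd_sig {n m k : ℕ} (h : m + k ≤ n) :
    Measurable[sig B n] fun ω => prd (fun i => B i ω) m k := by
  induction k with
  | zero => exact measurable_const
  | succ k ih =>
    exact (ih (by omega)).mul (measurable_sig (by omega))

omit [Monoid N] [MeasurableMul₂ N] in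
theorem sig_le (hB : ∀ i, Measurable (B i)) (n : ℕ) : sig B n ≤ mΩ :=
  iSup₂_le fun i _ => (hB i).comap_le

theorem measurable_prd (hB : ∀ i, Measurable (B i)) (m k : ℕ) :
    Measurable fun ω => prd (fun i => B i ω) m k :=
  (measurable_prd_sig (n := m + k) le_rfl).mono (sig_le hB _) le_rfl

/-- Joint law of two consecutive blocks. -/
theorem map_blocks (hB : ∀ i, Measurable (B i)) (hind : iIndepFun B P)
    (hlaw : ∀ i, P.map (B i) = ν) (t s : ℕ) :
    P.map (fun ω => (prd (fun i => B i ω) 0 t, prd (fun i => B i ω) t s)) =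
      (P.map fun ω => prd (fun i => B i ω) 0 t).prod (conv ν s) := by
  induction s with
  | zero =>
    unfold conv
    rw [Measure.prod_dirac, Measure.map_map (by fun_prop) (measurable_prd hB _ _)]
    rfl
  | succ s ih =>
    have h1 : Indep (sig B (t + s)) (MeasurableSpace.comap (B (t + s)) inferInstance) P := by
      have h2 := indep_iSup_of_disjoint (m := fun i => MeasurableSpace.comap (B i) inferInstance)
        (fun i => (hB i).comap_le) hind.iIndep (S := Set.Iio (t + s)) (T := {t + s})
        (by simp)
      refine indep_of_indep_of_le_right h2 ?_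
      exact le_iSup₂_of_le (f := fun i (_ : i ∈ ({t + s} : Set ℕ)) =>
        MeasurableSpace.comap (B i) inferInstance) (t + s) rfl le_rfl
    have h3 : IndepFun (fun ω => (prd (fun i => B i ω) 0 t, prd (fun i => B i ω) t s))
        (B (t + s)) P := by
      rw [IndepFun_iff_Indep]
      refine indep_of_indep_of_le_left h1 ?_
      have h4 : Measurable[sig B (t + s)] fun ω =>
          (prd (fun i => B i ω) 0 t, prd (fun i => B i ω) t s) :=
        (measurable_prd_sig (by omega)).prodMk (measurable_prd_sig le_rfl)
      exact h4.comap_le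
    have hm1 : Measurable fun ω => (prd (fun i => B i ω) 0 t, prd (fun i => B i ω) t s) :=
      (measurable_prd hB _ _).prodMk (measurable_prd hB _ _)
    have h5 := h3.map_prod_eq_prod_map_map hm1.aemeasurable (hB (t + s)).aemeasurable
    rw [ih, hlaw] at h5
    have h6 : (fun ω => (prd (fun i => B i ω) 0 t, prd (fun i => B i ω) t (s + 1))) =
        (fun z : (N × N) × N => (z.1.1, z.1.2 * z.2)) ∘
        (fun ω => ((prd (fun i => B i ω) 0 t, prd (fun i => B i ω) t s), B (t + s) ω)) := rfl
    have : IsProbabilityMeasure (P.map fun ω => prd (fun i => B i ω) 0 t) :=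
      Measure.isProbabilityMeasure_map (measurable_prd hB _ _).aemeasurable
    rw [h6, ← Measure.map_map (by fun_prop) (hm1.prodMk (hB _)), h5]
    -- both sides as images of a triple product
    set α := P.map fun ω => prd (fun i => B i ω) 0 t
    have h7 : α.prod (conv ν (s + 1)) = (α.prod (ν.prod (conv ν s))).map
        (fun z : N × N × N => (z.1, z.2.2 * z.2.1)) := by
      have h8 := Measure.map_prod_map α (ν.prod (conv ν s)) (f := id)
        (g := fun z : N × N => z.2 * z.1) measurable_id (by fun_prop)
      rw [Measure.map_id] at h8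
      exact h8
    have h9 : (α.prod (conv ν s)).prod ν = (α.prod (ν.prod (conv ν s))).map
        (fun z : N × N × N => ((z.1, z.2.2), z.2.1)) := by
      have h10 : α.prod ((conv ν s).prod ν) = (α.prod (ν.prod (conv ν s))).map
          (Prod.map id Prod.swap) := by
        rw [← Measure.map_prod_map α (ν.prod (conv ν s)) measurable_id measurable_swap,
          Measure.map_id, Measure.prod_swap]
      have h11 := Measure.prodAssoc_prod (μ := α) (ν := conv ν s) (τ := ν)
      have h12 : (α.prod (conv ν s)).prod ν =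
          (α.prod ((conv ν s).prod ν)).map MeasurableEquiv.prodAssoc.symm := by
        rw [← h11, Measure.map_map (by fun_prop) (by fun_prop)]
        simp
      rw [h12, h10, Measure.map_map (by fun_prop) (by fun_prop)]
      rfl
    rw [h7, h9, Measure.map_map (by fun_prop) (by fun_prop)]
    rfl

theorem map_prd (hB : ∀ i, Measurable (B i)) (hind : iIndepFun B P)
    (hlaw : ∀ i, P.map (B i) = ν) (t : ℕ) :
    P.map (fun ω => prd (fun i => B i ω) 0 t) = conv ν t := by
  have h := map_blocks hB hind hlaw 0 t
  have h0 : (P.map fun ω => prd (fun i => B i ω) 0 0) = Measure.dirac 1 := by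
    have : (fun ω => prd (fun i => B i ω) 0 0) = fun _ => (1 : N) := rfl
    rw [this, Measure.map_const, measure_univ, one_smul]
  rw [h0] at h
  have h1 : (fun ω => prd (fun i => B i ω) 0 t) =
      Prod.snd ∘ fun ω => (prd (fun i => B i ω) 0 0, prd (fun i => B i ω) 0 t) := rfl
  rw [h1, ← Measure.map_map measurable_snd
    ((measurable_prd hB _ _).prodMk (measurable_prd hB _ _)), h, Measure.map_snd_prod,
    measure_univ, one_smul]

theorem map_blocks' (hB : ∀ i, Measurable (B i)) (hind : iIndepFun B P)
    (hlaw : ∀ i, P.map (B i) = ν) (t s : ℕ) :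
    P.map (fun ω => (prd (fun i => B i ω) 0 t, prd (fun i => B i ω) t s)) =
      (conv ν t).prod (conv ν s) := by
  rw [map_blocks hB hind hlaw, map_prd hB hind hlaw]

omit [IsProbabilityMeasure ν] in
theorem ae_conv_succ [SFinite ν] {p : N → Prop} {s : ℕ} [SFinite (conv ν s)]
    (h : ∀ᵐ x ∂(conv ν (s + 1)), p x) : ∀ᵐ g ∂ν, ∀ᵐ x ∂(conv ν s), p (x * g) := by
  unfold conv at h
  have h1 := ae_of_ae_map (f := fun z : N × N => z.2 * z.1) (by fun_prop) h
  exact Measure.ae_ae_of_ae_prod h1

end

/-- The law of a product of independent positive variables with symmetric law is symmetric. -/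
theorem conv_inv {κ : Measure ℝ} [IsProbabilityMeasure κ] (h : κ.map (fun x => x⁻¹) = κ) (n : ℕ) :
    (conv κ n).map (fun x => x⁻¹) = conv κ n := by
  induction n with
  | zero =>
    unfold conv
    rw [Measure.map_dirac' (by fun_prop)]
    simp
  | succ n ih =>
    unfold conv
    rw [Measure.map_map (by fun_prop) (by fun_prop)]
    have h1 : (fun x : ℝ => x⁻¹) ∘ (fun z : ℝ × ℝ => z.2 * z.1) =
        (fun z : ℝ × ℝ => z.2 * z.1) ∘ (Prod.map (fun x => x⁻¹) (fun x => x⁻¹)) := by
      funext z
      simp [mul_comm]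
    rw [h1, ← Measure.map_map (by fun_prop) (by fun_prop), ← Measure.map_prod_map _ _
      (by fun_prop) (by fun_prop), h, ih]

/-- A product of independent identically distributed positive variables whose law is invariant
under inversion is at least `1` with probability at least `1/2`. -/
theorem half_le {Ω : Type*} {mΩ : MeasurableSpace Ω} {P : Measure Ω} [IsProbabilityMeasure P]
    {Y : ℕ → Ω → ℝ} (hY : ∀ i, Measurable (Y i)) (hpos : ∀ i ω, 0 < Y i ω) (hind : iIndepFun Y P)
    {κ : Measure ℝ} (hlaw : ∀ i, P.map (Y i) = κ) (hκ : κ.map (fun x => x⁻¹) = κ) (n : ℕ) :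
    2⁻¹ ≤ P {ω | 1 ≤ prd (fun i => Y i ω) 0 n} := by
  have : IsProbabilityMeasure κ := by
    rw [← hlaw 0]
    exact Measure.isProbabilityMeasure_map (hY 0).aemeasurable
  have hm := measurable_prd hY 0 n
  have hp : ∀ ω, 0 < prd (fun i => Y i ω) 0 n := by
    intro ω
    induction n with
    | zero => simp [prd]
    | succ n ih => exact mul_pos (ih (measurable_prd hY 0 n)) (hpos _ _)
  have h1 : P {ω | prd (fun i => Y i ω) 0 n ≤ 1} = P {ω | 1 ≤ prd (fun i => Y i ω) 0 n} := by
    have h2 : {ω | prd (fun i => Y i ω) 0 n ≤ 1} =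
        (fun ω => prd (fun i => Y i ω) 0 n) ⁻¹' ((fun x : ℝ => x⁻¹) ⁻¹' (Set.Ici 1)) := by
      ext ω
      simp only [Set.mem_ofPred_eq, Set.mem_preimage, Set.mem_Ici]
      rw [one_le_inv₀ (hp ω)]
    have h3 : {ω | 1 ≤ prd (fun i => Y i ω) 0 n} =
        (fun ω => prd (fun i => Y i ω) 0 n) ⁻¹' (Set.Ici 1) := rfl
    rw [h2, h3, ← Measure.map_apply hm (measurable_inv measurableSet_Ici),
      ← Measure.map_apply hm measurableSet_Ici, map_prd hY hind hlaw,
      ← Measure.map_apply measurable_inv measurableSet_Ici, conv_inv hκ]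
  have h4 : (1 : ℝ≥0∞) ≤ P {ω | prd (fun i => Y i ω) 0 n ≤ 1} +
      P {ω | 1 ≤ prd (fun i => Y i ω) 0 n} := by
    rw [← measure_univ (μ := P)]
    refine le_trans (measure_mono fun ω _ => ?_) (measure_union_le _ _)
    exact le_total (prd (fun i => Y i ω) 0 n) 1
  rw [h1, ← two_mul] at h4
  rw [← one_div]
  exact ENNReal.div_le_of_le_mul' h4

end Pool.Agent.R766.RW
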