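import Pool.Agent.R766.RW.Iid

/-!
If a vector converges almost surely along the random walk of a finite-dimensional representation,
for a symmetric adapted measure, then it is fixed by the group.
-/

set_option autoImplicit false

open MeasureTheory ProbabilityTheory Finset Filter Topology
open scoped ENNReal

namespace Pool.Agent.R766.RW

variable {E : Type*} [NormedAddCommGroup E] [NormedSpace ℝ E]

/-- The truncated norm. -/
noncomputable def phi (x : E) : ℝ≥0∞ := min 1 ‖x‖ₑ

theorem phi_le_one (x : E) : phi x ≤ 1 := min_le_left _ _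

theorem phi_add (x y : E) : phi (x + y) ≤ phi x + phi y := by
  unfold phi
  rcases le_total 1 ‖x‖ₑ with h | h
  · rw [min_eq_left h]
    exact (min_le_left _ _).trans le_self_add
  · rcases le_total 1 ‖y‖ₑ with h' | h'
    · rw [min_eq_left h']
      exact (min_le_left _ _).trans le_add_self
    · rw [min_eq_right h, min_eq_right h']
      exact (min_le_right _ _).trans (enorm_add_le x y)

theorem phi_smul (c : ℝ) (x : E) : phi (c • x) ≤ (1 + ‖c‖ₑ) * phi x := by
  unfold phi
  rw [enorm_smul]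
  rcases le_total 1 ‖x‖ₑ with h | h
  · rw [min_eq_left h, mul_one]
    exact (min_le_left _ _).trans le_self_add
  · rw [min_eq_right h]
    refine (min_le_right _ _).trans ?_
    gcongr
    exact le_add_self

theorem phi_zero : phi (0 : E) = 0 := by simp [phi]

section

variable [MeasurableSpace E] [BorelSpace E]

theorem measurable_phi : Measurable (phi : E → ℝ≥0∞) := by
  unfold phi
  fun_prop

end

variable [FiniteDimensional ℝ E]

theorem scm : SecondCountableTopology (E →L[ℝ] E) := by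
  have : FiniteDimensional ℝ (E →L[ℝ] E) := inferInstance
  have : ProperSpace (E →L[ℝ] E) := FiniteDimensional.proper ℝ _
  infer_instance

attribute [local instance] scm

/-- The expectation of the truncated norm. -/
noncomputable def aa (α : Measure (E →L[ℝ] E)) (w : E) : ℝ≥0∞ := ∫⁻ h, phi (h w) ∂α

theorem continuous_phi : Continuous (phi : E → ℝ≥0∞) := by
  unfold phi
  fun_prop

theorem measurable_phi_apply (w : E) : Measurable fun h : E →L[ℝ] E => phi (h w) :=
  (continuous_phi.comp (continuous_eval_const w)).measurable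

theorem aa_add (α : Measure (E →L[ℝ] E)) (w w' : E) : aa α (w + w') ≤ aa α w + aa α w' := by
  unfold aa
  rw [← lintegral_add_left (measurable_phi_apply w)]
  exact lintegral_mono fun h => by
    rw [map_add]; exact phi_add _ _

theorem aa_smul (α : Measure (E →L[ℝ] E)) (c : ℝ) (w : E) :
    aa α (c • w) ≤ (1 + ‖c‖ₑ) * aa α w := by
  unfold aa
  rw [← lintegral_const_mul _ (measurable_phi_apply w)]
  exact lintegral_mono fun h => by
    rw [map_smul]; exact phi_smul _ _

theorem aa_zero (α : Measure (E →L[ℝ] E)) : aa α (0 : E) = 0 := by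
  simp [aa, phi_zero]

/-- The vectors which tend to zero in probability along a sequence of laws. -/
noncomputable def FF (α : ℕ → Measure (E →L[ℝ] E)) : Submodule ℝ E where
  carrier := {w | Tendsto (fun k => aa (α k) w) atTop (𝓝 0)}
  add_mem' {w w'} h h' := by
    have h1 := (h : Tendsto (fun k => aa (α k) w) atTop (𝓝 0)).add
      (h' : Tendsto (fun k => aa (α k) w') atTop (𝓝 0))
    rw [add_zero] at h1
    exact tendsto_of_tendsto_of_tendsto_of_le_of_le tendsto_const_nhds h1
      (fun _ => zero_le) (fun k => aa_add _ _ _)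
  zero_mem' := by
    simp only [Set.mem_ofPred_eq, aa_zero]
    exact tendsto_const_nhds
  smul_mem' c w h := by
    have h1 := ENNReal.Tendsto.const_mul (a := 1 + ‖c‖ₑ)
      (h : Tendsto (fun k => aa (α k) w) atTop (𝓝 0)) (Or.inr (by simp))
    rw [mul_zero] at h1
    exact tendsto_of_tendsto_of_tendsto_of_le_of_le tendsto_const_nhds h1
      (fun _ => zero_le) (fun k => aa_smul _ _ _)

theorem mem_FF {α : ℕ → Measure (E →L[ℝ] E)} {w : E} :
    w ∈ FF α ↔ Tendsto (fun k => aa (α k) w) atTop (𝓝 0) := Iff.rfl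

/-- The vectors that are mapped into `F` almost surely at all times. -/
noncomputable def F2 (ν : Measure (E →L[ℝ] E)) (F : Submodule ℝ E) : Submodule ℝ E where
  carrier := {w | ∀ s, ∀ᵐ h ∂(conv ν s), h w ∈ F}
  add_mem' {w w'} h h' := by
    intro s
    filter_upwards [h s, h' s] with g h1 h2
    rw [map_add]; exact F.add_mem h1 h2
  zero_mem' := by
    intro s
    exact Eventually.of_forall fun h => by rw [map_zero]; exact F.zero_mem
  smul_mem' c w h := by
    intro s
    filter_upwards [h s] with g h1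
    rw [map_smul]; exact F.smul_mem c h1

theorem mem_F2 {ν : Measure (E →L[ℝ] E)} {F : Submodule ℝ E} {w : E} :
    w ∈ F2 ν F ↔ ∀ s, ∀ᵐ h ∂(conv ν s), h w ∈ F := Iff.rfl

theorem F2_le (ν : Measure (E →L[ℝ] E)) (F : Submodule ℝ E) : F2 ν F ≤ F := by
  intro w hw
  have h := mem_F2.1 hw 0
  unfold conv at h
  rw [ae_dirac_eq] at h
  exact h

section

variable {ν : Measure (E →L[ℝ] E)} [IsProbabilityMeasure ν]

theorem ae_mem_F2 {F : Submodule ℝ E} {w : E} (hw : w ∈ F2 ν F) : ∀ᵐ g ∂ν, g w ∈ F2 ν F := by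
  have h : ∀ s, ∀ᵐ g ∂ν, ∀ᵐ h ∂(conv ν s), h (g w) ∈ F := fun s =>
    ae_conv_succ (p := fun x : E →L[ℝ] E => x w ∈ F) (mem_F2.1 hw (s + 1))
  filter_upwards [ae_all_iff.2 h] with g hg
  exact hg

theorem ae_sub_mem_F2 {F : Submodule ℝ E} {v : E} (hv : ∀ s, ∀ᵐ h ∂(conv ν s), h v - v ∈ F) :
    ∀ᵐ g ∂ν, g v - v ∈ F2 ν F := by
  have h : ∀ s, ∀ᵐ g ∂ν, ∀ᵐ h ∂(conv ν s), h (g v) - v ∈ F := fun s =>
    ae_conv_succ (p := fun x : E →L[ℝ] E => x v - v ∈ F) (hv (s + 1))
  filter_upwards [ae_all_iff.2 h] with g hg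
  intro s
  filter_upwards [hg s, hv s] with h h1 h2
  have h3 : h (g v - v) = (h (g v) - v) - (h v - v) := by rw [map_sub]; abel
  rw [h3]
  exact F.sub_mem h1 h2

/-- Choice of a good sequence of times. -/
theorem exists_times (v : E)
    (h : ∀ s, Tendsto (fun t => ∫⁻ g, aa (conv ν t) (g v - v) ∂(conv ν s)) atTop (𝓝 0)) :
    ∃ t : ℕ → ℕ, ∀ s, ∀ᵐ g ∂(conv ν s), g v - v ∈ FF fun k => conv ν (t k) := by
  have h1 : ∀ k : ℕ, ∃ t, ∀ s ∈ range (k + 1),
      ∫⁻ g, aa (conv ν t) (g v - v) ∂(conv ν s) < (2⁻¹ : ℝ≥0∞) ^ k := by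
    intro k
    have h2 : ∀ᶠ t in atTop, ∀ s ∈ range (k + 1),
        ∫⁻ g, aa (conv ν t) (g v - v) ∂(conv ν s) < (2⁻¹ : ℝ≥0∞) ^ k := by
      rw [eventually_all_finset]
      intro s _
      exact (h s).eventually_lt_const (ENNReal.pow_pos (by simp) k)
    exact h2.exists
  choose t ht using h1
  refine ⟨t, fun s => ?_⟩
  have hm : ∀ k, Measurable fun g : E →L[ℝ] E => aa (conv ν (t k)) (g v - v) := by
    intro k
    unfold aa
    have h2 : Measurable fun z : (E →L[ℝ] E) × (E →L[ℝ] E) => phi (z.2 (z.1 v - v)) := by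
      have : Continuous fun z : (E →L[ℝ] E) × (E →L[ℝ] E) => phi (z.2 (z.1 v - v)) :=
        continuous_phi.comp (by fun_prop)
      exact this.measurable
    exact h2.lintegral_prod_right'
  have h3 : ∫⁻ g, ∑' k, aa (conv ν (t k)) (g v - v) ∂(conv ν s) ≠ ∞ := by
    rw [lintegral_tsum fun k => (hm k).aemeasurable]
    have h4 : ∀ k, ∫⁻ g, aa (conv ν (t k)) (g v - v) ∂(conv ν s) ≤
        (if k < s then 1 else 0) + (2⁻¹ : ℝ≥0∞) ^ k := by
      intro k
      by_cases hk : k < s
      · rw [if_pos hk]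
        refine le_trans ?_ le_self_add
        calc ∫⁻ g, aa (conv ν (t k)) (g v - v) ∂(conv ν s) ≤ ∫⁻ g, 1 ∂(conv ν s) := by
              refine lintegral_mono fun g => ?_
              unfold aa
              calc ∫⁻ h, phi (h (g v - v)) ∂(conv ν (t k)) ≤ ∫⁻ h, 1 ∂(conv ν (t k)) :=
                    lintegral_mono fun h => phi_le_one _
                _ = 1 := by simp
          _ = 1 := by simp
      · rw [if_neg hk, zero_add]
        exact (ht k s (mem_range.2 (by omega))).le
    refine ne_top_of_le_ne_top ?_ (ENNReal.tsum_le_tsum h4)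
    rw [ENNReal.tsum_add]
    refine ENNReal.add_ne_top.2 ⟨?_, ?_⟩
    · rw [tsum_eq_sum (s := range s) fun k hk => if_neg (by simpa using hk)]
      exact ENNReal.sum_ne_top.2 fun k _ => by split_ifs <;> simp
    · rw [ENNReal.tsum_geometric]
      simp
  have h5 := ae_lt_top (Measurable.ennreal_tsum hm) h3
  filter_upwards [h5] with g hg
  exact ENNReal.tendsto_atTop_zero_of_tsum_ne_top hg.ne

end

/-! ### Groups -/

section

variable {G : Type*} [Group G] (ρ : G →* (E →L[ℝ] E))

omit [FiniteDimensional ℝ E] in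
theorem map_prd_rep (x : ℕ → G) (m n : ℕ) :
    ρ (prd x m n) = prd (fun i => ρ (x i)) m n := by
  induction n with
  | zero => simp [prd]
  | succ n ih => rw [prd, prd, map_mul, ih]

/-- The stabilizer of the affine subspace `v + W`. -/
def stab (W : Submodule ℝ E) (v : E) : Subgroup G where
  carrier := {g | (∀ w ∈ W, ρ g w ∈ W) ∧ ρ g v - v ∈ W}
  one_mem' := by simp
  mul_mem' {a b} ha hb := by
    refine ⟨fun w hw => ?_, ?_⟩
    · rw [map_mul]
      exact ha.1 _ (hb.1 w hw)
    · have h : ρ (a * b) v - v = ρ a (ρ b v - v) + (ρ a v - v) := by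
        rw [map_mul, map_sub, ContinuousLinearMap.mul_apply]; abel
      rw [h]
      exact W.add_mem (ha.1 _ hb.2) ha.2
  inv_mem' {a} ha := by
    have hinv : ∀ w, ρ a⁻¹ (ρ a w) = w := fun w => by
      rw [← ContinuousLinearMap.mul_apply, ← map_mul, inv_mul_cancel, map_one]; rfl
    have h1 : ∀ w ∈ W, ρ a⁻¹ w ∈ W := by
      intro w hw
      let f : W →ₗ[ℝ] W := (ρ a : E →ₗ[ℝ] E).restrict ha.1
      have hf : Function.Injective f := by
        intro x y hxy
        have h2 : ρ a x = ρ a y := congrArg Subtype.val hxy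
        have h3 := congrArg (ρ a⁻¹) h2
        rw [hinv, hinv] at h3
        exact Subtype.ext h3
      obtain ⟨x, hx⟩ := (LinearMap.injective_iff_surjective.1 hf) ⟨w, hw⟩
      have h4 : ρ a x = w := congrArg Subtype.val hx
      rw [← h4, hinv]
      exact x.2
    refine ⟨h1, ?_⟩
    have h2 : ρ a⁻¹ v - v = - ρ a⁻¹ (ρ a v - v) := by
      rw [map_sub, hinv]; abel
    rw [h2]
    exact W.neg_mem (h1 _ ha.2)

theorem mem_stab {W : Submodule ℝ E} {v : E} {g : G} :
    g ∈ stab ρ W v ↔ (∀ w ∈ W, ρ g w ∈ W) ∧ ρ g v - v ∈ W := Iff.rfl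

theorem isClosed_stab [TopologicalSpace G] (hρ : Continuous ρ) (W : Submodule ℝ E) (v : E) :
    IsClosed (stab ρ W v : Set G) := by
  have hW : IsClosed (W : Set E) := W.closed_of_finiteDimensional
  have h1 : ∀ w : E, Continuous fun g => ρ g w := fun w => (continuous_eval_const w).comp hρ
  have h2 : (stab ρ W v : Set G) = (⋂ w ∈ W, {g | ρ g w ∈ (W : Set E)}) ∩
      {g | ρ g v - v ∈ (W : Set E)} := by
    ext g
    simp only [SetLike.mem_coe, mem_stab, Set.mem_inter_iff, Set.mem_iInter, Set.mem_ofPred_eq]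
  rw [h2]
  refine IsClosed.inter (isClosed_biInter fun w _ => hW.preimage (h1 w)) ?_
  exact hW.preimage ((h1 v).sub continuous_const)

/-- The restriction of the representation to an invariant subspace. -/
def sub (W : Submodule ℝ E) (hW : ∀ g, ∀ w ∈ W, ρ g w ∈ W) : G →* (W →ₗ[ℝ] W) where
  toFun g := (ρ g : E →ₗ[ℝ] E).restrict (hW g)
  map_one' := by ext x; simp
  map_mul' a b := by ext x; simp

/-- The absolute value of the determinant on an invariant subspace. -/
noncomputable def chi (W : Submodule ℝ E) (hW : ∀ g, ∀ w ∈ W, ρ g w ∈ W) (g : G) : ℝ :=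
  |LinearMap.det (sub ρ W hW g)|

theorem chi_mul (W : Submodule ℝ E) (hW : ∀ g, ∀ w ∈ W, ρ g w ∈ W) (a b : G) :
    chi ρ W hW (a * b) = chi ρ W hW a * chi ρ W hW b := by
  rw [chi, map_mul, map_mul, abs_mul, chi, chi]

theorem chi_one (W : Submodule ℝ E) (hW : ∀ g, ∀ w ∈ W, ρ g w ∈ W) : chi ρ W hW 1 = 1 := by
  rw [chi, map_one, map_one, abs_one]

theorem chi_inv (W : Submodule ℝ E) (hW : ∀ g, ∀ w ∈ W, ρ g w ∈ W) (a : G) :
    chi ρ W hW a⁻¹ = (chi ρ W hW a)⁻¹ := by
  refine eq_inv_of_mul_eq_one_left ?_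
  rw [← chi_mul, inv_mul_cancel, chi_one]

theorem chi_pos (W : Submodule ℝ E) (hW : ∀ g, ∀ w ∈ W, ρ g w ∈ W) (a : G) :
    0 < chi ρ W hW a := by
  have h1 : 0 ≤ chi ρ W hW a := abs_nonneg _
  rcases h1.eq_or_lt with h | h
  · have h2 := chi_mul ρ W hW a⁻¹ a
    rw [inv_mul_cancel, chi_one, ← h, mul_zero] at h2
    exact absurd h2 one_ne_zero
  · exact h

theorem chi_prd (W : Submodule ℝ E) (hW : ∀ g, ∀ w ∈ W, ρ g w ∈ W) (x : ℕ → G) (m n : ℕ) :
    chi ρ W hW (prd x m n) = prd (fun i => chi ρ W hW (x i)) m n := by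
  induction n with
  | zero => simp [prd, chi_one]
  | succ n ih => rw [prd, prd, chi_mul, ih]

/-- The determinant in terms of the images of a basis. -/
noncomputable def dt {W : Submodule ℝ E} {n : ℕ} (b : Module.Basis (Fin n) ℝ W)
    (y : Fin n → W) : ℝ := Matrix.det (Matrix.of fun i j => b.repr (y j) i)

theorem continuous_dt {W : Submodule ℝ E} {n : ℕ} (b : Module.Basis (Fin n) ℝ W) :
    Continuous (dt b) := by
  unfold dt
  refine Continuous.matrix_det ?_
  refine continuous_matrix fun i j => ?_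
  have h1 : Continuous fun w : W => b.repr w i := by
    have : Continuous (b.coord i) := LinearMap.continuous_of_finiteDimensional _
    exact this
  exact h1.comp (continuous_apply j)

theorem dt_zero {W : Submodule ℝ E} {n : ℕ} (hn : 0 < n) (b : Module.Basis (Fin n) ℝ W) :
    dt b 0 = 0 := by
  unfold dt
  have : (Matrix.of fun i j => b.repr ((0 : Fin n → W) j) i) = (0 : Matrix (Fin n) (Fin n) ℝ) := by
    ext i j; simp
  have : Nonempty (Fin n) := ⟨⟨0, hn⟩⟩
  rw [‹(Matrix.of fun i j => b.repr ((0 : Fin n → W) j) i) = _›, Matrix.det_zero]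

theorem chi_eq {W : Submodule ℝ E} (hW : ∀ g, ∀ w ∈ W, ρ g w ∈ W) {n : ℕ}
    (b : Module.Basis (Fin n) ℝ W) (g : G) :
    chi ρ W hW g = |dt b fun j => sub ρ W hW g (b j)| := by
  rw [chi, ← LinearMap.det_toMatrix b, dt]
  congr 2
  ext i j
  rw [LinearMap.toMatrix_apply]
  rfl

theorem continuous_chi [TopologicalSpace G] (hρ : Continuous ρ) (W : Submodule ℝ E)
    (hW : ∀ g, ∀ w ∈ W, ρ g w ∈ W) : Continuous (chi ρ W hW) := by
  have b := Module.finBasis ℝ W
  have h1 : chi ρ W hW = fun g => |dt b fun j => sub ρ W hW g (b j)| := funext (chi_eq ρ hW b)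
  rw [h1]
  refine continuous_abs.comp ((continuous_dt b).comp (continuous_pi fun j => ?_))
  refine Continuous.subtype_mk ((continuous_eval_const (b j : E)).comp hρ) _

end

section

variable {G : Type*} [Group G] [TopologicalSpace G] [MeasurableSpace G] [BorelSpace G]
  (μ : Measure G) [IsProbabilityMeasure μ]
  {Ω : Type*} {mΩ : MeasurableSpace Ω} {P : Measure Ω} [IsProbabilityMeasure P]
  {U : ℕ → Ω → G}

/-- A vector such that the increments along the random walk tend to zero in probability is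
fixed. -/
theorem fixed_core (hinv : Measurable fun g : G => g⁻¹) (hsymm : μ.map (fun g => g⁻¹) = μ)
    (hadapt : ∀ H : Subgroup G, IsClosed (H : Set G) → H ≠ ⊤ → μ H < 1)
    (hU : ∀ i, Measurable (U i)) (hind : iIndepFun U P) (hlaw : ∀ i, P.map (U i) = μ)
    (ρ : G →* (E →L[ℝ] E)) (hρ : Continuous ρ) (v : E)
    (hinc : ∀ s, Tendsto (fun t => ∫⁻ ω, phi (ρ (prd (fun i => U i ω) 0 (t + s)) v -
      ρ (prd (fun i => U i ω) 0 t) v) ∂P) atTop (𝓝 0)) :
    ∀ g, ρ g v = v := by
  set ν := μ.map ρ with hν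
  have hνp : IsProbabilityMeasure ν := Measure.isProbabilityMeasure_map hρ.measurable.aemeasurable
  set B : ℕ → Ω → (E →L[ℝ] E) := fun i ω => ρ (U i ω) with hB
  have hBm : ∀ i, Measurable (B i) := fun i => hρ.measurable.comp (hU i)
  have hBi : iIndepFun B P := hind.comp (fun _ => ρ) fun _ => hρ.measurable
  have hBl : ∀ i, P.map (B i) = ν := fun i => by
    rw [hν, ← hlaw i, Measure.map_map hρ.measurable (hU i)]; rfl
  have hprd : ∀ ω m n, prd (fun i => B i ω) m n = ρ (prd (fun i => U i ω) m n) := fun ω m n =>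
    (map_prd_rep ρ _ m n).symm
  -- convergence in mean of the increments
  have h1 : ∀ s, Tendsto (fun t => ∫⁻ g, aa (conv ν t) (g v - v) ∂(conv ν s)) atTop (𝓝 0) := by
    intro s
    have h2 : ∀ t, ∫⁻ g, aa (conv ν t) (g v - v) ∂(conv ν s) =
        ∫⁻ ω, phi (ρ (prd (fun i => U i ω) 0 (t + s)) v - ρ (prd (fun i => U i ω) 0 t) v) ∂P := by
      intro t
      have hc : Continuous fun z : (E →L[ℝ] E) × (E →L[ℝ] E) => phi (z.1 (z.2 v - v)) :=
        continuous_phi.comp (by fun_prop)
      calc ∫⁻ g, aa (conv ν t) (g v - v) ∂(conv ν s)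
          = ∫⁻ z, phi (z.1 (z.2 v - v)) ∂((conv ν t).prod (conv ν s)) := by
            rw [lintegral_prod_symm' _ hc.measurable]
            rfl
        _ = ∫⁻ ω, phi ((prd (fun i => B i ω) 0 t) (prd (fun i => B i ω) t s v - v)) ∂P := by
            rw [← map_blocks' hBm hBi hBl t s, lintegral_map hc.measurable
              ((measurable_prd hBm _ _).prodMk (measurable_prd hBm _ _))]
        _ = _ := by
            refine lintegral_congr fun ω => ?_
            rw [← hprd, ← hprd, prd_add, map_sub]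
            rfl
    simp only [h2]
    exact hinc s
  obtain ⟨t, ht⟩ := exists_times v h1
  set F := FF fun k => conv ν (t k) with hF
  set W := F2 ν F with hW
  -- the stabilizer is everything
  have h2 : stab ρ W v = ⊤ := by
    by_contra hne
    have h3 := hadapt _ (isClosed_stab ρ hρ W v) hne
    refine absurd h3 (not_lt.2 ?_)
    have h4 : ∀ᵐ g ∂μ, g ∈ (stab ρ W v : Set G) := by
      have h5 : ∀ w ∈ W, ∀ᵐ g ∂μ, ρ g w ∈ W := fun w hw =>
        ae_of_ae_map hρ.measurable.aemeasurable (ae_mem_F2 hw)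
      have h6 : ∀ᵐ g ∂μ, ρ g v - v ∈ W :=
        ae_of_ae_map hρ.measurable.aemeasurable (ae_sub_mem_F2 ht)
      obtain ⟨S, hS⟩ := (IsNoetherian.noetherian W : W.FG)
      have h7 : ∀ᵐ g ∂μ, ∀ w ∈ S, ρ g w ∈ W := by
        rw [eventually_all_finset]
        exact fun w hw => h5 w (hS ▸ Submodule.subset_span hw)
      filter_upwards [h6, h7] with g hg1 hg2
      refine ⟨fun w hw => ?_, hg1⟩
      have h8 : Submodule.span ℝ (S : Set E) ≤ W.comap (ρ g : E →ₗ[ℝ] E) :=
        Submodule.span_le.2 fun w hw => hg2 w hw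
      rw [hS] at h8
      exact h8 hw
    rw [← measure_univ (μ := μ)]
    exact measure_mono_ae (by filter_upwards [h4] with g hg _ using hg)
  have h3 : ∀ g, g ∈ stab ρ W v := fun g => by rw [h2]; trivial
  have hWinv : ∀ g, ∀ w ∈ W, ρ g w ∈ W := fun g => (h3 g).1
  -- the subspace is zero
  have h4 : W = ⊥ := by
    by_contra hne
    set n := Module.finrank ℝ W with hn
    have hn0 : 0 < n := by
      have : Nontrivial W := (Submodule.nontrivial_iff_ne_bot).2 hne
      exact Module.finrank_pos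
    have b : Module.Basis (Fin n) ℝ W := Module.finBasis ℝ W
    have hχ := continuous_chi ρ hρ W hWinv
    set Y : ℕ → Ω → ℝ := fun i ω => chi ρ W hWinv (U i ω) with hY
    have hYm : ∀ i, Measurable (Y i) := fun i => hχ.measurable.comp (hU i)
    have hYi : iIndepFun Y P := hind.comp (fun _ => chi ρ W hWinv) fun _ => hχ.measurable
    have hYl : ∀ i, P.map (Y i) = μ.map (chi ρ W hWinv) := fun i => by
      rw [← hlaw i, Measure.map_map hχ.measurable (hU i)]; rfl
    have hκ : (μ.map (chi ρ W hWinv)).map (fun x => x⁻¹) = μ.map (chi ρ W hWinv) := by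
      rw [Measure.map_map (by fun_prop) hχ.measurable]
      have h5 : (fun x : ℝ => x⁻¹) ∘ chi ρ W hWinv = chi ρ W hWinv ∘ fun g => g⁻¹ := by
        funext g
        simp only [Function.comp_apply]
        rw [chi_inv]
      rw [h5, ← Measure.map_map hχ.measurable hinv, hsymm]
    have hhalf : ∀ k, 2⁻¹ ≤ P {ω | 1 ≤ prd (fun i => Y i ω) 0 k} := fun k =>
      half_le hYm (fun i ω => chi_pos ρ W hWinv _) hYi hYl hκ k
    -- small images of the basis give a small determinant
    obtain ⟨δ, hδ, hδ'⟩ : ∃ δ > 0, ∀ y : Fin n → W, ‖y‖ < δ → |dt b y| < 1 := by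
      have h5 := (continuous_dt b).abs.tendsto 0
      rw [dt_zero hn0, abs_zero] at h5
      have h6 := h5.eventually_lt_const one_pos
      rw [Metric.eventually_nhds_iff] at h6
      obtain ⟨δ, hδ, h7⟩ := h6
      exact ⟨δ, hδ, fun y hy => h7 (by rwa [dist_zero_right])⟩
    set ε : ℝ≥0∞ := min 1 (ENNReal.ofReal δ) with hε
    have hε0 : ε ≠ 0 := by
      rw [hε]
      exact (lt_min one_pos (ENNReal.ofReal_pos.2 hδ)).ne'
    have hεt : ε ≠ ∞ := ne_top_of_le_ne_top ENNReal.one_ne_top (min_le_left _ _)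
    have hsum : Tendsto (fun k => ∑ j : Fin n, aa (conv ν (t k)) (b j : E) / ε) atTop (𝓝 0) := by
      have h5 : ∀ j ∈ (univ : Finset (Fin n)),
          Tendsto (fun k => aa (conv ν (t k)) (b j : E) / ε) atTop (𝓝 0) := by
        intro j _
        have h6 : (b j : E) ∈ F := F2_le ν F (b j).2
        have h7 := ENNReal.Tendsto.div_const (mem_FF.1 h6) (Or.inr hε0)
        rw [ENNReal.zero_div] at h7
        exact h7
      have h8 := tendsto_finsetSum univ h5
      rwa [sum_const_zero] at h8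
    obtain ⟨k, hk⟩ := (hsum.eventually_lt_const (show (0 : ℝ≥0∞) < 2⁻¹ by simp)).exists
    refine absurd (hhalf (t k)) (not_le.2 (lt_of_le_of_lt ?_ hk))
    have h5 : {ω | 1 ≤ prd (fun i => Y i ω) 0 (t k)} ⊆
        ⋃ j ∈ (univ : Finset (Fin n)), {ω | ε ≤ phi (prd (fun i => B i ω) 0 (t k) (b j : E))} := by
      intro ω hω
      by_contra hcon
      simp only [Set.mem_iUnion, not_exists, Set.mem_ofPred_eq, not_le] at hcon
      have h6 : prd (fun i => Y i ω) 0 (t k) = chi ρ W hWinv (prd (fun i => U i ω) 0 (t k)) :=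
        (chi_prd ρ W hWinv _ _ _).symm
      have h7 : (1 : ℝ) ≤ prd (fun i => Y i ω) 0 (t k) := hω
      rw [h6, chi_eq ρ hWinv b] at h7
      refine absurd h7 (not_le.2 (hδ' _ ?_))
      rw [pi_norm_lt_iff hδ]
      intro j
      have h8 := hcon j (mem_univ j)
      rw [hprd] at h8
      have h9 : ‖ρ (prd (fun i => U i ω) 0 (t k)) (b j : E)‖ₑ < ENNReal.ofReal δ := by
        unfold phi at h8
        rcases min_lt_iff.1 h8 with h | h
        · exact absurd h (not_lt.2 (min_le_left _ _))
        · exact h.trans_le (min_le_right _ _)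
      rw [← ofReal_norm, ENNReal.ofReal_lt_ofReal_iff hδ] at h9
      exact h9
    calc P {ω | 1 ≤ prd (fun i => Y i ω) 0 (t k)}
        ≤ ∑ j : Fin n, P {ω | ε ≤ phi (prd (fun i => B i ω) 0 (t k) (b j : E))} :=
          (measure_mono h5).trans (measure_biUnion_finset_le _ _)
      _ ≤ ∑ j : Fin n, aa (conv ν (t k)) (b j : E) / ε := by
          refine sum_le_sum fun j _ => ?_
          have h6 : aa (conv ν (t k)) (b j : E) =
              ∫⁻ ω, phi (prd (fun i => B i ω) 0 (t k) (b j : E)) ∂P := by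
            rw [← map_prd hBm hBi hBl (t k), aa, lintegral_map (measurable_phi_apply _)
              (measurable_prd hBm _ _)]
          rw [h6]
          exact meas_ge_le_lintegral_div
            ((measurable_phi_apply (b j : E)).comp (measurable_prd hBm _ _)).aemeasurable hε0 hεt
  intro g
  have h5 := (h3 g).2
  rw [h4, Submodule.mem_bot, sub_eq_zero] at h5
  exact h5


/-- A vector whose images along the random walk converge almost surely is fixed. -/
theorem fixed (hinv : Measurable fun g : G => g⁻¹) (hsymm : μ.map (fun g => g⁻¹) = μ)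
    (hadapt : ∀ H : Subgroup G, IsClosed (H : Set G) → H ≠ ⊤ → μ H < 1)
    (hU : ∀ i, Measurable (U i)) (hind : iIndepFun U P) (hlaw : ∀ i, P.map (U i) = μ)
    (ρ : G →* (E →L[ℝ] E)) (hρ : Continuous ρ) (v : E)
    (hconv : ∀ᵐ ω ∂P, ∃ l, Tendsto (fun t => ρ (prd (fun i => U i ω) 0 t) v) atTop (𝓝 l)) :
    ∀ g, ρ g v = v := by
  refine fixed_core μ hinv hsymm hadapt hU hind hlaw ρ hρ v fun s => ?_
  set B : ℕ → Ω → (E →L[ℝ] E) := fun i ω => ρ (U i ω) with hB
  have hBm : ∀ i, Measurable (B i) := fun i => hρ.measurable.comp (hU i)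
  have hprd : ∀ ω m n, ρ (prd (fun i => U i ω) m n) = prd (fun i => B i ω) m n := fun ω m n =>
    map_prd_rep ρ _ m n
  have h3 : ∫⁻ ω, (0 : ℝ≥0∞) ∂P = 0 := by simp
  rw [← h3]
  refine tendsto_lintegral_of_dominated_convergence (fun _ => 1) (fun t => ?_)
    (fun t => Eventually.of_forall fun ω => phi_le_one _) (by simp) ?_
  · simp only [hprd]
    have hc : Continuous fun z : (E →L[ℝ] E) × (E →L[ℝ] E) => phi (z.1 v - z.2 v) :=
      continuous_phi.comp (by fun_prop)
    exact hc.measurable.comp ((measurable_prd hBm _ _).prodMk (measurable_prd hBm _ _))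
  · filter_upwards [hconv] with ω hω
    obtain ⟨l, hl⟩ := hω
    have h4 := (hl.comp (tendsto_add_atTop_nat s)).sub hl
    rw [sub_self] at h4
    have h5 := (continuous_phi.tendsto (0 : E)).comp h4
    rw [phi_zero] at h5
    exact h5

end

end Pool.Agent.R766.RW
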